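import Pool.Agent.U455.JX
import Pool.Agent.R473.FP.FS
import Pool.Agent.TH817.Z3.Z
import Pool.Agent.TH250.Z3.Arch

/-!
# The digits of `ζ(3)`: finite automata and piecewise recurrences

If `ζ(3)` were rational, its digits in every base would be one periodic piece. Here `ζ(3)` alone is considered, and the
digits are cut into pieces each of which satisfies a linear recurrence of its own.

A predictor with `Q` states (an automaton which reads the digits of `ζ(3)` in base `b` one after the other and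
predicts each next digit from its state) which makes `E` errors on the first `N` digits satisfies
`N ≤ (4.68 + 4.68² + ⋯ + 4.68^(E+1)) (Q + C)`, with one constant `C` for all bases. If the first `N` digits are cut at
the places in `E` into pieces which satisfy linear recurrences of order `m` over `ℚ`, each piece its own, then
`N ≤ (4.68 + ⋯ + 4.68^(|E|+1)) (m + C √((m+1) log (m+2)))`.

The proof: the irrationality exponent `4.68` of the starting files (`Pool.Agent.TH817`, `Pool.Agent.TH250`) and the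
estimates for cut digits (`Pool.Agent.R473.FP`, `Pool.Agent.U455.JX`).
-/

set_option autoImplicit false

namespace Pool.Agent.Results.MP_48b3e2_nt.DigitPieces

/-- `ζ(3)` -/
noncomputable def z3 : ℝ := ∑' n : ℕ, 1 / ((n : ℝ) + 1) ^ 3

/-- the `i`-th digit of `x` after the point in base `b` -/
noncomputable def digit (b : ℕ) (x : ℝ) (i : ℕ) : ℤ := ⌊x * (b : ℝ) ^ i⌋ % (b : ℤ)

/-- the state of the automaton with transitions `δ` and initial state `q₀` after it has read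
`d 1, …, d n` -/
def run {Q : ℕ} (δ : Fin Q → ℤ → Fin Q) (q₀ : Fin Q) (d : ℕ → ℤ) : ℕ → Fin Q
  | 0 => q₀
  | n + 1 => δ (run δ q₀ d n) (d (n + 1))

/-- the number of errors of the automaton on `d 1, …, d N`: the number of `n < N` such that the
prediction `out` of the state after `d 1, …, d n` is not `d (n + 1)` -/
def errors {Q : ℕ} (δ : Fin Q → ℤ → Fin Q) (q₀ : Fin Q) (out : Fin Q → ℤ) (d : ℕ → ℤ) (N : ℕ) : ℕ :=
  ((Finset.range N).filter fun n => out (run δ q₀ d n) ≠ d (n + 1)).card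

theorem run_eq {Q : ℕ} (δ : Fin Q → ℤ → Fin Q) (q₀ : Fin Q) (d : ℕ → ℤ) (n : ℕ) :
    run δ q₀ d n = Pool.Agent.R473.FP.run δ q₀ d n := by
  induction n with
  | zero => rfl
  | succ n ih =>
    change δ (run δ q₀ d n) (d (n + 1)) = δ (Pool.Agent.R473.FP.run δ q₀ d n) (d (n + 1))
    rw [ih]

theorem errors_eq {Q : ℕ} (δ : Fin Q → ℤ → Fin Q) (q₀ : Fin Q) (out : Fin Q → ℤ) (d : ℕ → ℤ)
    (N : ℕ) : errors δ q₀ out d N = Pool.Agent.R473.FP.errors δ q₀ out d N := by
  unfold errors Pool.Agent.R473.FP.errors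
  simp only [run_eq]

/-- Every stretch `u+1, …, v` of the first `N` places which contains no place `i + 1` with `i ∈ E` is
such that the digits of `x` at these places satisfy a linear recurrence of order `m` over `ℚ` (which
may depend on the stretch). So the first `N` digits are cut at the places in `E` into pieces of linear
complexity at most `m`. -/
def Cut (b : ℕ) (x : ℝ) (N m : ℕ) (E : Finset ℕ) : Prop :=
  ∀ u v, u ≤ v → v ≤ N → (∀ i ∈ E, i < u ∨ v ≤ i) → ∃ c : ℕ → ℚ, ∀ i, u ≤ i → i + m < v →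
    (digit b x (i + m + 1) : ℚ) = ∑ l ∈ Finset.range m, c l * (digit b x (i + l + 1) : ℚ)

theorem z3_meas : ∃ c : ℝ, 0 < c ∧ ∀ q : ℕ, 1 ≤ q → ∀ p : ℤ,
    c ≤ (q : ℝ) ^ ((4.68 : ℝ) - 1) * |q * z3 - p| := by
  obtain ⟨c, hc, h⟩ := Pool.Agent.TH817.Z3.Z_pre Pool.Agent.TH250.Z3.AM
  refine ⟨c, hc, fun q hq p => ?_⟩
  have h1 := h p q (by omega)
  have hqR : (1 : ℝ) ≤ q := by exact_mod_cast hq
  have hq0 : (0 : ℝ) < q := by linarith
  rw [div_le_iff₀ (Real.rpow_pos_of_pos hq0 _)] at h1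
  have e1 : q * z3 - p = q * (z3 - p / q) := by field_simp
  have e2 : (q : ℝ) ^ ((468 : ℝ) / 100) = (q : ℝ) ^ ((4.68 : ℝ) - 1) * q := by
    rw [show ((468 : ℝ) / 100) = ((4.68 : ℝ) - 1) + 1 by norm_num, Real.rpow_add hq0, Real.rpow_one]
  rw [e2] at h1
  rw [e1, abs_mul, abs_of_pos hq0]
  have h2 : |z3 - p / q| * ((q : ℝ) ^ ((4.68 : ℝ) - 1) * q) =
      (q : ℝ) ^ ((4.68 : ℝ) - 1) * (q * |z3 - p / q|) := by ring
  rw [← h2]
  exact h1

/-- **The digits of `ζ(3)`.**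

(1) Predictors. (2) Pieces with linear recurrences. (3) If `θ + c log 4.68 < 1`, then for all large `N` and all
bases the first `N` digits of `ζ(3)` are not cut at `c log N` or fewer places into pieces with linear recurrences
of order at most `N ^ θ`. -/
theorem result :
    (∃ C : ℝ, 0 < C ∧ ∀ b : ℕ, 2 ≤ b → ∀ (Q : ℕ) (δ : Fin Q → ℤ → Fin Q) (q₀ : Fin Q)
      (out : Fin Q → ℤ) (N : ℕ), (N : ℝ) ≤
        (∑ i ∈ Finset.range (errors δ q₀ out (digit b z3) N + 1), (4.68 : ℝ) ^ (i + 1)) * (Q + C)) ∧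
    (∃ C : ℝ, 0 < C ∧ ∀ b : ℕ, 2 ≤ b → ∀ (N m : ℕ) (E : Finset ℕ), Cut b z3 N m E → (N : ℝ) ≤
        (∑ i ∈ Finset.range (E.card + 1), (4.68 : ℝ) ^ (i + 1)) *
          (m + C * Real.sqrt (((m : ℝ) + 1) * Real.log ((m : ℝ) + 2)))) ∧
    (∀ θ c : ℝ, 0 ≤ θ → 0 ≤ c → θ + c * Real.log 4.68 < 1 → ∃ N₀ : ℕ, ∀ N : ℕ, N₀ ≤ N →
      ∀ b : ℕ, 2 ≤ b → ∀ (m : ℕ) (E : Finset ℕ), (m : ℝ) ≤ (N : ℝ) ^ θ →
        (E.card : ℝ) ≤ c * Real.log N → ¬ Cut b z3 N m E) := by
  obtain ⟨c0, hc0, hM⟩ := z3_meas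
  have hpieces : ∃ C : ℝ, 0 < C ∧ ∀ b : ℕ, 2 ≤ b → ∀ (N m : ℕ) (E : Finset ℕ), Cut b z3 N m E →
      (N : ℝ) ≤ (∑ i ∈ Finset.range (E.card + 1), (4.68 : ℝ) ^ (i + 1)) *
          (m + C * Pool.Agent.W47.JL.err m) := by
    obtain ⟨K, hK⟩ : ∃ K : ℝ, K = 3 * |Real.log c0| + 3 := ⟨_, rfl⟩
    have hK0 : 0 ≤ K := by rw [hK]; positivity
    refine ⟨15 + 2 * K, by positivity, fun b hb N m E hE => ?_⟩
    refine (Pool.Agent.U455.JX.cut1_exp 4.68 c0 (by norm_num) hc0 z3 hM b hb N m E hE).trans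
      (mul_le_mul_of_nonneg_left ?_ (Finset.sum_nonneg fun i _ => by positivity))
    have h1 := Pool.Agent.W47.JL.err_ge m
    have h2 : K ≤ 2 * K * Pool.Agent.W47.JL.err m := by nlinarith
    linarith
  refine ⟨?_, hpieces, ?_⟩
  · refine ⟨3 * |Real.log c0| + 1, by positivity, fun b hb Q δ q₀ out N => ?_⟩
    have h := Pool.Agent.U455.JX.fs_exp z3 4.68 c0 (by norm_num) hc0 hM b hb Q δ q₀ out N
    rw [errors_eq, ← add_assoc]
    exact h
  · intro θ c hθ hc hlt
    obtain ⟨C, hC, h1⟩ := hpieces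
    obtain ⟨N₀, hN₀, H2⟩ := Pool.Agent.U455.JX.large 4.68 θ c (1 + 2 * C) (by norm_num)
      hc (by positivity) (by linarith)
    refine ⟨N₀, fun N hN b hb m E hm hE hcut => ?_⟩
    have hN1 : 1 ≤ N := by omega
    have hNR : (1 : ℝ) ≤ N := by exact_mod_cast hN1
    have hNθ : (1 : ℝ) ≤ (N : ℝ) ^ θ := Real.one_le_rpow hNR hθ
    refine H2 N hN E.card hE ((h1 b hb N m E hcut).trans ?_)
    refine mul_le_mul_of_nonneg_left ?_ (Finset.sum_nonneg fun i _ => by positivity)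
    have h2 := Pool.Agent.N553.PC.err_le m
    have h3 : C * Pool.Agent.W47.JL.err m ≤ C * (2 * (N : ℝ) ^ θ) :=
      mul_le_mul_of_nonneg_left (by linarith) hC.le
    nlinarith

end Pool.Agent.Results.MP_48b3e2_nt.DigitPieces
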