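import Pool.Agent.R473.JC.Final
import Pool.Agent.U456.IZ.Three

/-!
# The digits of `ζ(3)` and of the tails of its triple integral

For `x ≥ 0` let `R(x) = 1/12 ∫ log(t_1 t_2 / t_3²)³ exp(-t_1 - t_2 - t_3) dt`, the integral being over the
points of the positive octant with `max t_i ≥ x`. Then `R(0) = ζ(3)`, the integral over the octant.

`S(X) = s_1 X + ⋯ + s_L X^L`, where the `s_i` are the digits of a real number `u` in base `b` after
at most `K` of them have been changed.  The `K`-error algebraic complexity `N_b(u) = N_b(u; r, K, L)`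
is the least `k` such that `X^(L+1)` divides `P(X, S(X))` for some nonzero polynomial `P(X, Y)` of
degree at most `r` in `Y` and at most `k` in `X` and some such choice of `S`; for `r = 1` this is
essentially the linear complexity.

Any two different members of a finite family of numbers `e^s R(x)` (`x ≥ 0` and `s` rational, different
pairs `(x, s)`, and `R(x) ≠ 0` if `x` occurs more than once) cannot both have digits of low algebraic
complexity, where two different bases, two different lengths and two different numbers of errors are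
allowed. For instance for every positive rational `x` and every `r` there is `c > 0` such that for all
bases `b`, all `K` and all `L`: `c^(K+1) L ≤ N_b(ζ(3)) + N_b(R(x)) + 2`.

The proof combines the formula of `Pool.Agent.R352.Q` for `ζ(3) - R(x)` as a polynomial in values of
E-functions, the measure of algebraic independence for these values (`Pool.Agent.N743.SS.measM_EE`, a
quantitative form of Shidlovskii's theorem), see `Pool/Agent/U456/IZ/Joint.lean`, and the estimate for
the digits of two numbers with a joint measure (`Pool.Agent.R473.JC.family`).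
-/

set_option autoImplicit false

namespace Pool.Agent.Results.MP_48b3e2_nt.DigitsOfTails

open Finset Polynomial MeasureTheory

/-- the points of the positive octant with a coordinate at least `x` -/
def rest (x : ℝ) : Set (Fin 3 → ℝ) := {t | (∀ j, 0 < t j) ∧ ∃ j, x ≤ t j}

/-- `R(x) = 1/12 ∫ log(t_1 t_2 / t_3²)³ exp(-t_1 - t_2 - t_3) dt` over the points of the positive octant
with a coordinate at least `x` -/
noncomputable def R (x : ℝ) : ℝ := 1 / 12 * ∫ t in rest x,
  Real.log (t 0 * t 1 / t 2 ^ 2) ^ 3 * Real.exp (-(t 0 + t 1 + t 2))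

/-- the `i`-th digit of `x` after the point in base `b` -/
noncomputable def digit (b : ℕ) (x : ℝ) (i : ℕ) : ℤ := ⌊x * (b : ℝ) ^ i⌋ % (b : ℤ)

/-- the polynomial `s_1 X + s_2 X^2 + ⋯ + s_L X^L` -/
noncomputable def seqPoly (s : ℕ → ℤ) (L : ℕ) : ℚ[X] :=
  ∑ l ∈ Finset.Icc 1 L, C (s l : ℚ) * X ^ l

/-- `s` is a sequence of base `b` digits, and among the places `1, …, L` at most `K` are such that
`s_l` is not the `l`-th digit of `x` -/
def Near (b : ℕ) (x : ℝ) (K L : ℕ) (s : ℕ → ℤ) : Prop :=
  (∀ l, 0 ≤ s l ∧ s l < b) ∧ {l : ℕ | 1 ≤ l ∧ l ≤ L ∧ s l ≠ digit b x l}.ncard ≤ K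

/-- there is a nonzero polynomial `P(X, Y)` over `ℚ` of degree `≤ r` in `Y` and `≤ k` in `X` such
that `P(X, S(X))` is divisible by `X^(L+1)`, where `S` is the polynomial of the first `L` terms
of `s` -/
def AlgRelation (s : ℕ → ℤ) (r L k : ℕ) : Prop :=
  ∃ P : ℚ[X][X], P ≠ 0 ∧ P.natDegree ≤ r ∧ (∀ j, (P.coeff j).natDegree ≤ k) ∧
    X ^ (L + 1) ∣ P.eval (seqPoly s L)

/-- the `K`-error algebraic complexity of degree `r` of the first `L` digits of `x` in base `b` -/
noncomputable def complexity (b : ℕ) (x : ℝ) (r K L : ℕ) : ℕ :=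
  sInf {k : ℕ | ∃ s, Near b x K L s ∧ AlgRelation s r L k}

/-- the joint lower bound for the digits of `u` and `v` in degree `r`, with the constant `A`, in all
pairs of bases, for all lengths and all numbers of errors -/
def Bound (A : ℝ) (r : ℕ) (u v : ℝ) : Prop :=
  ∀ b b' : ℕ, 2 ≤ b → 2 ≤ b' → ∀ K K' L L' : ℕ,
    min (L * Real.log b) (L' * Real.log b') ≤
      A ^ (K + K' + 1) * ((complexity b u r K L + 1) * Real.log b +
        (complexity b' v r K' L' + 1) * Real.log b')

/-- the case of one base, one length and one number of errors -/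
lemma one_base (u v A : ℝ) (hA : 1 ≤ A) (r : ℕ) (h : Bound A r u v) (b : ℕ) (hb : 2 ≤ b)
    (K L : ℕ) : (1 / A ^ 2) ^ (K + 1) * (L : ℝ) ≤
      complexity b u r K L + complexity b v r K L + 2 := by
  have hl : 0 < Real.log b := Real.log_pos (by exact_mod_cast (by omega : 1 < b))
  have hA0 : 0 < A := by linarith
  have h1 := h b b hb hb K K L L
  rw [min_self] at h1
  have h2 : (L : ℝ) ≤ A ^ (K + K + 1) * (complexity b u r K L + complexity b v r K L + 2) := by
    have h3 : (L : ℝ) * Real.log b ≤
        (A ^ (K + K + 1) * (complexity b u r K L + complexity b v r K L + 2)) * Real.log b := by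
      linarith
    exact le_of_mul_le_mul_right h3 hl
  have h4 : A ^ (K + K + 1) ≤ (A ^ 2) ^ (K + 1) := by
    rw [← pow_mul]
    exact pow_le_pow_right₀ hA (by omega)
  rw [div_pow, one_pow, div_mul_eq_mul_div, one_mul, div_le_iff₀ (by positivity)]
  calc (L : ℝ) ≤ A ^ (K + K + 1) * (complexity b u r K L + complexity b v r K L + 2) := h2
    _ ≤ (A ^ 2) ^ (K + 1) * (complexity b u r K L + complexity b v r K L + 2) :=
        mul_le_mul_of_nonneg_right h4 (by positivity)
    _ = _ := by ring

/-- **The digits of `ζ(3)` and of the tails of its triple integral.**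

(1) `R(0) = ζ(3)`.

(2) For every finite family of numbers `e^s R(x)` with rational `x ≥ 0` and rational `s`, with different
pairs `(x, s)` and with `R(x) ≠ 0` if `x` occurs more than once, and every `r` there is `A ≥ 1` such
that for any two of them, all bases `β, β'`, all lengths `L, L'` and all numbers of errors `K, K'`:
`min (L log β, L' log β') ≤ A^(K+K'+1) ((N + 1) log β + (N' + 1) log β')`.

(3) For every rational `x > 0` and every `r` there is `c > 0` such that for all bases `b ≥ 2`, all `K`
and all `L`: `c^(K+1) L ≤ N_b(ζ(3); r, K, L) + N_b(R(x); r, K, L) + 2`. -/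
theorem result :
    R 0 = ∑' n : ℕ, 1 / ((n : ℝ) + 1) ^ 3 ∧
    (∀ (n : ℕ) (x s : Fin n → ℚ), (∀ i, 0 ≤ x i) →
      (∀ i j, i ≠ j → x i = x j → s i ≠ s j ∧ R (x i) ≠ 0) →
      ∀ r : ℕ, ∃ A : ℝ, 1 ≤ A ∧ ∀ i j, i ≠ j →
        Bound A r (Real.exp (s i) * R (x i)) (Real.exp (s j) * R (x j))) ∧
    (∀ (x : ℚ), 0 < x → ∀ r : ℕ, ∃ c : ℝ, 0 < c ∧ ∀ b : ℕ, 2 ≤ b → ∀ K L : ℕ,
      c ^ (K + 1) * L ≤ complexity b (R 0) r K L + complexity b (R x) r K L + 2) := by
  have part2 : ∀ (n : ℕ) (x s : Fin n → ℚ), (∀ i, 0 ≤ x i) →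
      (∀ i j, i ≠ j → x i = x j → s i ≠ s j ∧ R (x i) ≠ 0) →
      ∀ r : ℕ, ∃ A : ℝ, 1 ≤ A ∧ ∀ i j, i ≠ j →
        Bound A r (Real.exp (s i) * R (x i)) (Real.exp (s j) * R (x j)) := by
    intro n x s hx h r
    exact Pool.Agent.R473.JC.family (fun i => Real.exp (s i) * R (x i))
      (fun i j hij => Pool.Agent.U456.IZ.joint_R3 x s hx h i j hij) r
  refine ⟨Pool.Agent.U456.IZ.R3_zero, part2, fun x hx r => ?_⟩
  obtain ⟨A, hA, h⟩ := part2 2 ![0, x] (fun _ => 0) (by
    intro i
    fin_cases i
    · exact le_rfl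
    · exact hx.le) (by
    intro i j hij hxy
    exfalso
    fin_cases i <;> fin_cases j
    · exact hij rfl
    · exact hx.ne hxy
    · exact hx.ne hxy.symm
    · exact hij rfl) r
  have h01 := h 0 1 (by decide)
  have e0 : Real.exp (((fun _ : Fin 2 => (0 : ℚ)) 0 : ℚ) : ℝ) * R ((![0, x] : Fin 2 → ℚ) 0) = R 0 := by
    simp
  have e1 : Real.exp (((fun _ : Fin 2 => (0 : ℚ)) 1 : ℚ) : ℝ) * R ((![0, x] : Fin 2 → ℚ) 1) = R x := by
    simp
  rw [e0, e1] at h01
  have hA0 : 0 < A := by linarith
  exact ⟨1 / A ^ 2, by positivity, fun b hb K L => one_base _ _ A hA r h01 b hb K L⟩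

end Pool.Agent.Results.MP_48b3e2_nt.DigitsOfTails
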