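import Pool.Agent.U456.IZ.Gen
import Pool.Agent.U456.IZ.Three
import Pool.Agent.U456.IZ.Liou

/-!
# `ζ(3)`, the values `ζ(k)` and the tails of their integrals over fields of Liouville numbers

For an integer `k ≥ 2`, `ω = exp(2πi/k)` and `x ≥ 0` let
`R_k(x) = (-1)^k / k! ∫ (∑_j ω^j log t_j)^k exp(-∑_j t_j) dt`, the integral being over the points of the
octant `(0, ∞)^k` with `max t_j ≥ x`. This number is real and `R_k(0) = ζ(k)`, the integral over the
octant. For `k = 3` this is `R_3(x) = 1/12 ∫ log(t_1 t_2 / t_3²)³ exp(-t_1 - t_2 - t_3) dt`, the integral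
being over the points of the octant with `max t_i ≥ x`.

Call a field `F` of real numbers simultaneously Liouville if for any finitely many elements
`x_1, …, x_m` of `F` and any `w` there are arbitrarily large `q` with `‖q x_i‖ < q ^ (-w)` for all
`i`. Besides `ℚ` such fields are, for instance,

* for a sequence `T_n → ∞` the field of all real numbers `x` which for one `A` and for all `E` have
  rational approximations of height at most `exp (A T_n)` with an error at most `exp (-E T_n)` for
  all large `n`;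
* for an infinite set `S` of integers the field generated by all real numbers `x` whose first `N`
  digits in some base have a partition into `o (log N)` phrases (`N ∈ S`), each of which is a digit
  or a copy of a block which begins earlier.

Over every such field `F`

* the numbers `e` and `ζ(k) - R_k(x)` (`k ≥ 2`, `x` positive rational) are algebraically independent;
* for every `k ≥ 2` at most one of the numbers `R_k(x)`, `x ≥ 0` rational, is algebraic over `F(e)`; so
  either `ζ(k)` is transcendental over `F(e)`, or all the tails `R_k(x)`, `x > 0` rational, are; this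
  holds in particular for `ζ(3)`.

For `F = ℚ` this is in the start result `IncompleteZetaValues` of this problem.

The proof uses the formula of `Pool.Agent.R352.Q` for `ζ(k) - R_k(x)` as a polynomial in values of
E-functions, the measure of algebraic independence for these values
(`Pool.Agent.N743.SS.measM_EE`, a quantitative form of Shidlovskii's theorem), and the new file
`Pool/Agent/U456/IZ/Liou.lean`: a polynomial measure of algebraic independence gives algebraic
independence over every simultaneously Liouville field.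
-/

set_option autoImplicit false

namespace Pool.Agent.Results.MP_48b3e2_nt.OverLiouvilleFields

open Filter Topology MeasureTheory Pool.Agent.Q163.LE

/-- `(∑_j ω^j log t_j)^k exp(-∑_j t_j)`, `ω = exp(2πi/k)` -/
noncomputable def integrand (k : ℕ) (t : Fin k → ℝ) : ℂ :=
  (∑ j : Fin k, Complex.exp (2 * Real.pi * Complex.I / k) ^ (j : ℕ) * (Real.log (t j) : ℂ)) ^ k *
    ((Real.exp (-∑ j, t j) : ℝ) : ℂ)

/-- the points of the octant with a coordinate at least `x` -/
def rest (k : ℕ) (x : ℝ) : Set (Fin k → ℝ) := {t | (∀ j, 0 < t j) ∧ ∃ j, x ≤ t j}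

/-- `R_k(x)`, as a complex number -/
noncomputable def tail (k : ℕ) (x : ℝ) : ℂ :=
  (-1) ^ k / k.factorial * ∫ t in rest k x, integrand k t

/-- `R_k(x)`, as a real number -/
noncomputable def R (k : ℕ) (x : ℝ) : ℝ := (tail k x).re

/-- the field generated by all real numbers `x` such that, for some base `b`,
`phrases b x N / log N` tends to `0` as `N` tends to infinity in `S` -/
noncomputable def field (S : Set ℕ) : Subfield ℝ := Subfield.closure {x : ℝ | ∃ b : ℕ, 2 ≤ b ∧
  Tendsto (fun N : ℕ => (phrases b x N : ℝ) / Real.log N) (atTop ⊓ 𝓟 S) (𝓝 0)}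

/-- `u` is algebraic over the field `F(e)`, equivalently over the ring `F[e]` -/
def AlgebraicOverFE (F : Subfield ℝ) (u : ℝ) : Prop :=
  IsAlgebraic (Algebra.adjoin F ({Real.exp 1} : Set ℝ)) u

open Pool.Agent.U456.IZ in
lemma two (F : Subfield ℝ) (hF : SimLiouville F) (k : ℕ) (hk : 2 ≤ k) (x y : ℚ) (hx : 0 ≤ x)
    (hxy : x < y) (h1 : AlgebraicOverFE F (R k x)) (h2 : AlgebraicOverFE F (R k y)) : False := by
  have hy : 0 < y := lt_of_le_of_lt hx hxy
  have hy' : (0 : ℝ) < y := by exact_mod_cast hy
  have e2 : R k y = Pool.Agent.R352.Q.Rk k y := Rg_pos hk hy'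
  rcases hx.eq_or_lt with h0 | h0
  · refine transc_Z hF hk hy ?_
    have e1 : R k x = Pool.Agent.R352.E.zt k := by rw [← h0, Rat.cast_zero]; exact Rg_zero hk
    have e3 : Pool.Agent.R352.Q.Zk k y = R k x - R k y := by
      rw [e1, e2, Pool.Agent.R352.Q.Rk]; ring
    rw [e3]
    exact h1.sub h2
  · refine transc_diff hF hk h0 hxy ?_
    have hx' : (0 : ℝ) < x := by exact_mod_cast h0
    have e1 : R k x = Pool.Agent.R352.Q.Rk k x := Rg_pos hk hx'
    have e3 : Pool.Agent.R352.Q.Zk k y - Pool.Agent.R352.Q.Zk k x = R k x - R k y := by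
      rw [e1, e2, Pool.Agent.R352.Q.Rk, Pool.Agent.R352.Q.Rk]; ring
    rw [e3]
    exact h1.sub h2

/-- **`ζ(3)`, the values `ζ(k) = R_k(0)` and the tails `R_k(x)` over simultaneously Liouville
fields.** -/
theorem result :
    -- examples of such fields
    (∀ (T : ℕ → ℝ) (hT : Tendsto T atTop atTop), SimLiouville (ApField T hT)) ∧
    (∀ S : Set ℕ, S.Infinite → SimLiouville (field S)) ∧
    -- the numbers `R_k(x)`
    (∀ k : ℕ, 2 ≤ k → (∀ x : ℝ, 0 ≤ x → tail k x = (R k x : ℂ)) ∧
      R k 0 = ∑' n : ℕ, 1 / ((n : ℝ) + 1) ^ k) ∧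
    (∀ x : ℝ, 0 ≤ x → R 3 x = 1 / 12 * ∫ t in rest 3 x,
      Real.log (t 0 * t 1 / t 2 ^ 2) ^ 3 * Real.exp (-(t 0 + t 1 + t 2))) ∧
    ∀ F : Subfield ℝ, SimLiouville F →
      -- (1) algebraic independence over `F`
      AlgebraicIndependent F (fun o : Option {p : ℕ × ℚ // 2 ≤ p.1 ∧ 0 < p.2} =>
        o.elim (Real.exp 1) fun p => R p.1.1 0 - R p.1.1 p.1.2) ∧
      -- (2) at most one exception for every `k`
      (∀ k : ℕ, 2 ≤ k → ∀ x y : ℚ, 0 ≤ x → 0 ≤ y → x ≠ y →
        ¬ AlgebraicOverFE F (R k x) ∨ ¬ AlgebraicOverFE F (R k y)) := by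
  refine ⟨sim_apField, sim_lz, fun k hk => ⟨fun x hx => Pool.Agent.U456.IZ.tailk_real hk hx,
    Pool.Agent.U456.IZ.Rg_zero hk⟩, ?_, fun F hF => ⟨?_, ?_⟩⟩
  · intro x hx
    have h3 : R 3 x = Pool.Agent.U456.IZ.R3 x := by
      rcases hx.eq_or_lt with rfl | hx
      · rw [Pool.Agent.U456.IZ.R3_zero]
        exact Pool.Agent.U456.IZ.Rg_zero (k := 3) (by norm_num)
      · rw [Pool.Agent.U456.IZ.R3_pos hx]
        exact Pool.Agent.U456.IZ.Rg_pos (k := 3) (by norm_num) hx
    exact h3
  · convert Pool.Agent.U456.IZ.ai_Z hF using 1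
    funext o
    cases o with
    | none => rfl
    | some p =>
      have hx' : (0 : ℝ) < (p.1.2 : ℚ) := by exact_mod_cast p.2.2
      have e1 : R p.1.1 0 = Pool.Agent.R352.E.zt p.1.1 := Pool.Agent.U456.IZ.Rg_zero p.2.1
      have e2 : R p.1.1 (p.1.2 : ℚ) = Pool.Agent.R352.Q.Rk p.1.1 (p.1.2 : ℚ) :=
        Pool.Agent.U456.IZ.Rg_pos p.2.1 hx'
      simp only [Option.elim, e1, e2, Pool.Agent.R352.Q.Rk]
      ring
  · intro k hk x y hx hy hxy
    by_contra hcon
    push Not at hcon
    rcases lt_or_gt_of_ne hxy with h | h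
    · exact two F hF k hk x y hx h hcon.1 hcon.2
    · exact two F hF k hk y x hy h hcon.2 hcon.1

end Pool.Agent.Results.MP_48b3e2_nt.OverLiouvilleFields
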