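import Pool.Agent.N743.Alg
import Pool.Agent.U456.IZ.Three

/-!
# `ζ(3)` in a family of triple integrals: the scales of the algebraic approximations

For `x ≥ 0` let `R(x) = 1/12 ∫ log(t_1 t_2 / t_3²)³ exp(-t_1 - t_2 - t_3) dt`, the integral being over the
points of the positive octant with `max t_i ≥ x`. Then `R(0) = ζ(3)`, the integral over the octant.

A number `u` is near at the scale `X` (with parameters `d` and `θ`) if some nonzero integer polynomial
of degree at most `d` with coefficients at most `X^θ` has at `u` a value at most `1 / X`.

For every finite family of numbers `e^s R(x)`, `x ≥ 0` and `s` rational, with different pairs `(x, s)`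
(and `R(x) ≠ 0` if `x` occurs more than once), for instance for `ζ(3)` and finitely many numbers `R(x)`
with different positive rational `x`, for every degree `d` and every `m > 1` the following scale
dichotomy is proved, for all small `θ > 0`.

* At every large scale at most one of the numbers is near.
* If one of the numbers is algebraic of degree at most `d`, it is near at all large scales and the
  others are near at no large scale.
* Otherwise every large scale `X` at which one of the numbers is near is followed by a scale `Z ≥ X`
  such that only this number is near between `X` and `Z` and none of the numbers is near between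
  `Z` and `Z^m`; and there are arbitrarily large `Z` such that none of the numbers is near between
  `Z` and `Z^m`.

The start result `IncompleteZetaValues` of this problem says that at most one of the numbers `R(x)` is
algebraic (over `ℚ(e)`); here all algebraic approximations of bounded degree are described. The proof
combines three parts of the starting library and the new file `Pool/Agent/U456/IZ/Joint.lean`: the
formula of `Pool.Agent.R352.Q` for `ζ(3) - R(x)` as a polynomial in values of E-functions, the measure of
algebraic independence for these values (`Pool.Agent.N743.SS.measM_EE`, a quantitative form of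
Shidlovskii's theorem) and the engine of the scale dichotomy (`Pool.Agent.N743.dichotomy_alg`).
-/

set_option autoImplicit false

namespace Pool.Agent.Results.MP_48b3e2_nt.TailScales

open Finset Polynomial MeasureTheory
open Pool.Agent.N743 (Dichotomy)

/-- the points of the positive octant with a coordinate at least `x` -/
def rest (x : ℝ) : Set (Fin 3 → ℝ) := {t | (∀ j, 0 < t j) ∧ ∃ j, x ≤ t j}

/-- `R(x) = 1/12 ∫ log(t_1 t_2 / t_3²)³ exp(-t_1 - t_2 - t_3) dt` over the points of the positive octant
with a coordinate at least `x` -/
noncomputable def R (x : ℝ) : ℝ := 1 / 12 * ∫ t in rest x,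
  Real.log (t 0 * t 1 / t 2 ^ 2) ^ 3 * Real.exp (-(t 0 + t 1 + t 2))

/-- `u` is algebraic of degree at most `d` -/
def AlgDeg (d : ℕ) (u : ℝ) : Prop := ∃ P : ℤ[X], P ≠ 0 ∧ P.natDegree ≤ d ∧ aeval u P = 0

/-- some nonzero integer polynomial of degree at most `d` with coefficients at most `X ^ θ` in
absolute value has at `u` a value at most `1 / X` in absolute value -/
def AlgNear (d : ℕ) (θ X u : ℝ) : Prop :=
  ∃ P : ℤ[X], P ≠ 0 ∧ P.natDegree ≤ d ∧ (∀ k, |((P.coeff k : ℤ) : ℝ)| ≤ X ^ θ) ∧
    |aeval u P| ≤ X⁻¹

/-- For every `d` and every `m > 1` there is `θ₀ > 0` such that for all positive `θ ≤ θ₀` the scale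
dichotomy holds for the numbers `x i` (good: algebraic of degree at most `d`; near at the scale `X`:
see `AlgNear`). -/
def Scales {ι : Type} (x : ι → ℝ) : Prop :=
  ∀ (d : ℕ) (m : ℝ), 1 < m → ∃ θ₀ : ℝ, 0 < θ₀ ∧ ∀ θ : ℝ, 0 < θ → θ ≤ θ₀ →
    Dichotomy (fun i => AlgDeg d (x i)) (fun X i => AlgNear d θ X (x i)) m

/-- **`ζ(3)` and the tails of its triple integral.**

(1) `R(0) = ζ(3)`.

(2) The scale dichotomy holds for all finite families of numbers `e^s R(x)` with rational `x ≥ 0` and
rational `s`, with different pairs `(x, s)` and with `R(x) ≠ 0` if `x` occurs more than once.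

(3) In particular it holds for all finite families of numbers `R(x)` with different rational
`x ≥ 0`. -/
theorem result :
    R 0 = ∑' n : ℕ, 1 / ((n : ℝ) + 1) ^ 3 ∧
    (∀ (n : ℕ) (x s : Fin n → ℚ), (∀ i, 0 ≤ x i) →
      (∀ i j, i ≠ j → x i = x j → s i ≠ s j ∧ R (x i) ≠ 0) →
      Scales fun i => Real.exp (s i) * R (x i)) ∧
    (∀ (n : ℕ) (x : Fin n → ℚ), (∀ i, 0 ≤ x i) → Function.Injective x →
      Scales fun i => R (x i)) := by
  have part2 : ∀ (n : ℕ) (x s : Fin n → ℚ), (∀ i, 0 ≤ x i) →
      (∀ i j, i ≠ j → x i = x j → s i ≠ s j ∧ R (x i) ≠ 0) →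
      Scales fun i => Real.exp (s i) * R (x i) := by
    intro n x s hx h d m hm
    exact Pool.Agent.N743.dichotomy_alg _
      (fun i j hij => Pool.Agent.U456.IZ.joint_R3 x s hx h i j hij) d m hm
  refine ⟨Pool.Agent.U456.IZ.R3_zero, part2, ?_⟩
  intro n x hx hinj
  have h1 := part2 n x (fun _ => 0) hx fun i j hij h => absurd (hinj h) hij
  have e : (fun i => Real.exp ((fun _ : Fin n => (0 : ℚ)) i) * R (x i)) = fun i => R (x i) := by
    funext i
    simp
  rwa [e] at h1

end Pool.Agent.Results.MP_48b3e2_nt.TailScales
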